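import Pool.Agent.H.MP_82f784_co.T

namespace Pool.Agent.H.MP_82f784_co

def h (x y : V) : Prop := cb (y - x) = true

lemma h_symm {x y : V} (e : h x y) : h y x := by
  unfold h at *; rw [← cb_neg, neg_sub]; exact e
lemma h_irr (x : V) : ¬ h x x := by simp [h, cb_zero]

def C4 (a b c d : V) : Prop := ∃ w, h a w ∧ h b w ∧ h c w ∧ h d w
def K (a b c d : V) : Prop := C4 a b c d ∨ ∃ v, (v ≠ a ∧ v ≠ b ∧ v ≠ c ∧ v ≠ d) ∧
  (h a v ∨ C4 v b c d) ∧ (h b v ∨ C4 v a c d) ∧ (h c v ∨ C4 v a b d) ∧ (h d v ∨ C4 v a b c)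

lemma c4 {a b c d : V} (e : (hm a &&& hm b &&& hm c &&& hm d != 0) = true) : C4 a b c d := by
  obtain ⟨i, hi⟩ := Nat.exists_testBit_of_ne_zero (bne_iff_ne.1 e)
  simp only [Nat.testBit_and, Bool.and_eq_true] at hi
  have : i < 127 := by
    by_contra k
    have : (hm a).testBit i = false := Nat.testBit_lt_two_pow (lt_of_lt_of_le
      (Nat.mod_lt _ (by positivity)) (Nat.pow_le_pow_right (by norm_num) (not_lt.1 k)))
    simp [this] at hi
  have t : ((i : V)).val = i := ZMod.val_cast_of_lt this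
  exact ⟨i, by simp only [h, ← hm_cb, t]; tauto⟩

lemma k1_ {u v x y z : V} (e : k1 u v x y z = true) : h u v ∨ C4 v x y z :=
  (Bool.or_eq_true _ _ ▸ e).imp (fun e => by rw [h, ← hm_cb]; exact e) c4

lemma norm {a b : V} (e : a ≠ b) : ∃ (f : V ≃ V) (i : Fin 3), f a = 0 ∧ f b = bb i ∧
    ∀ x y, h (f x) (f y) ↔ h x y := by
  haveI : Fact (Nat.Prime 127) := ⟨by norm_num⟩
  obtain ⟨h1, ⟨i, h2⟩, h3⟩ := ss1 (b - a) (sub_ne_zero.2 e.symm)
  refine ⟨(Equiv.subRight a).trans (Equiv.mulLeft₀ _ h1), i, by simp, by simpa using h2,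
    fun x y => ?_⟩
  simp only [h, Equiv.trans_apply, Equiv.subRight_apply, Equiv.mulLeft₀_apply, ← mul_sub, h3,
    sub_sub_sub_cancel_right]

lemma allK {a b c d : V} (h1 : a ≠ b) (h2 : a ≠ c) (h3 : a ≠ d) (h4 : b ≠ c) (h5 : b ≠ d)
    (h6 : c ≠ d) : K a b c d := by
  obtain ⟨f, i, e1, e2, e3⟩ := norm h1
  have t : ∀ {a b c d}, C4 (f a) (f b) (f c) (f d) → C4 a b c d := by
    rintro a b c d ⟨w, hw⟩
    obtain ⟨w, rfl⟩ := f.surjective w
    exact ⟨w, by simpa only [e3] using hw⟩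
  have k := kill i (f c) (f d) (e1 ▸ f.injective.ne h2.symm) (e2 ▸ f.injective.ne h4.symm)
    (e1 ▸ f.injective.ne h3.symm) (e2 ▸ f.injective.ne h5.symm) (f.injective.ne h6)
  obtain ⟨v, hv⟩ := f.surjective (wv i (f c) (f d))
  rw [← hv, ← e1, ← e2, k2, Bool.or_eq_true] at k
  refine k.imp (fun k => t (c4 k)) fun k => ⟨v, ?_⟩
  simp only [Bool.and_eq_true, bne_iff_ne, ne_eq, f.injective.eq_iff] at k
  obtain ⟨⟨⟨⟨⟨⟨⟨a1, a2⟩, a3⟩, a4⟩, b1⟩, b2⟩, b3⟩, b4⟩ := k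
  exact ⟨⟨a1, a2, a3, a4⟩, (k1_ b1).imp (e3 _ _).1 t, (k1_ b2).imp (e3 _ _).1 t,
    (k1_ b3).imp (e3 _ _).1 t, (k1_ b4).imp (e3 _ _).1 t⟩

lemma noK4 {a b c d : V} (h1 : h a b) (h2 : h a c) (h3 : h a d) (h4 : h b c) (h5 : h b d)
    (h6 : h c d) : False := by
  obtain ⟨f, i, e1, e2, e3⟩ := norm (a := a) (b := b) fun e => h_irr a (e ▸ h1)
  rw [← e3] at h1 h2 h3 h4 h5 h6
  rw [e1] at h1 h2 h3
  rw [e2] at h1 h4 h5
  have := congrArg (fun m => m.testBit (f d).val)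
    (k4 i (f c) (by simpa [h] using h1) (by simpa [h] using h2) h4)
  simp only [Nat.testBit_and, hm_cb, Nat.zero_testBit] at this
  unfold h at h3 h5 h6
  rw [h3, h5, h6] at this
  exact absurd this (by decide)

end Pool.Agent.H.MP_82f784_co
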